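import Pool.Agent.Q39.TC.Step

/-!
# Positive Toeplitz completions: the class `PTC` is not stable under matrix algebras

The C*-algebra `C(ℕ ∪ {∞})` of the continuous complex functions on the one point compactification
of `ℕ` (the convergent sequences) belongs to `PTC`, and the algebras of `m × m` matrices over it,
`m ≥ 2`, do not.
-/

open Matrix Filter Topology

namespace Pool.Agent.Results.MP_a15892_an.MatricesOverConvergentSequences

/-- The Toeplitz matrix `[a (i - j)]` of size `n`. -/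
def toeplitz {A : Type*} (n : ℕ) (a : ℤ → A) : Matrix (Fin n) (Fin n) A :=
  Matrix.of fun i j => a ((i : ℤ) - (j : ℤ))

/-- Positivity in the C*-algebra of the `n × n` matrices over a C*-algebra: `Y = Bᴴ * B`. -/
def IsPos {A : Type*} [NonUnitalRing A] [StarRing A] {n : ℕ} (Y : Matrix (Fin n) (Fin n) A) : Prop :=
  ∃ B : Matrix (Fin n) (Fin n) A, Y = Bᴴ * B

/-- The positive Toeplitz completion class. -/
def PTC (A : Type*) [NonUnitalRing A] [StarRing A] : Prop :=
  ∀ k n : ℕ, 0 < k → k < n → ∀ a : ℤ → A, IsPos (toeplitz k a) →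
    ∃ y : ℤ → A, (∀ l : ℤ, |l| ≤ k - 1 → y l = a l) ∧ IsPos (toeplitz n y)

open scoped ComplexOrder in
open Pool.Agent.Q39.TC in
theorem pos_part : PTC C(OnePoint ℕ, ℂ) := by
  intro k n hk hkn a ha
  obtain ⟨B, hB⟩ := ha
  have h0 : ∀ x, (Q39.TC.toeplitz k fun l => a l x).PosSemidef := by
    intro x
    have e : (Q39.TC.toeplitz k fun l => a l x) =
        (B.map fun f => f x)ᴴ * (B.map fun f => f x) := by
      ext i j
      have h1 := congrArg (fun f : C(OnePoint ℕ, ℂ) => f x) (congrFun (congrFun hB i) j)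
      simp only [Matrix.mul_apply, ContinuousMap.sum_apply] at h1 ⊢
      exact h1
    rw [e]
    exact posSemidef_conjTranspose_mul_self _
  have key : ∀ m : ℕ, k ≤ m → ∃ y : ℤ → C(OnePoint ℕ, ℂ), (∀ l : ℤ, |l| ≤ k - 1 → y l = a l) ∧
      ∀ x, (Q39.TC.toeplitz m fun l => y l x).PosSemidef := by
    intro m hm
    induction m, hm using Nat.le_induction with
    | base => exact ⟨a, fun _ _ => rfl, h0⟩
    | succ m hm ih =>
      obtain ⟨y, hy1, hy2⟩ := ih
      obtain ⟨z, hz⟩ := step (by omega) y hy2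
      refine ⟨Q39.TC.ext m y z, fun l hl => ?_, hz⟩
      have h1 : l ≠ (m : ℤ) := by
        rintro rfl
        rw [abs_of_nonneg (by omega)] at hl
        omega
      have h2 : l ≠ -(m : ℤ) := by
        rintro rfl
        rw [abs_neg, abs_of_nonneg (by omega)] at hl
        omega
      simp only [Q39.TC.ext, h1, h2, if_false]
      exact hy1 l hl
  obtain ⟨y, hy1, hy2⟩ := key n hkn.le
  refine ⟨y, hy1, ?_⟩
  exact exists_factor (toeplitz n y) fun x => hy2 x

/-- `1 / (n + 1)`. -/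
noncomputable def tt : C(OnePoint ℕ, ℂ) :=
  OnePoint.continuousMapMkNat (fun n => ((1 / ((n : ℝ) + 1) : ℝ) : ℂ)) 0 (by
    exact (Complex.continuous_ofReal.tendsto 0).comp
      (tendsto_one_div_add_atTop_nhds_zero_nat (𝕜 := ℝ)))

/-- `(-1) ^ n / (n + 1)`. -/
noncomputable def hh : C(OnePoint ℕ, ℂ) :=
  OnePoint.continuousMapMkNat (fun n => (-1) ^ n * ((1 / ((n : ℝ) + 1) : ℝ) : ℂ)) 0 (by
    rw [tendsto_zero_iff_norm_tendsto_zero]
    have := tendsto_one_div_add_atTop_nhds_zero_nat (𝕜 := ℝ)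
    refine this.congr fun n => ?_
    rw [norm_mul, norm_pow, norm_neg, norm_one, one_pow, one_mul, Complex.norm_real,
      Real.norm_eq_abs, abs_of_pos (by positivity)])

theorem tt_coe (n : ℕ) : tt (n : OnePoint ℕ) = ((1 / ((n : ℝ) + 1) : ℝ) : ℂ) := rfl
theorem tt_inf : tt OnePoint.infty = 0 := rfl
theorem hh_coe (n : ℕ) : hh (n : OnePoint ℕ) = (-1) ^ n * ((1 / ((n : ℝ) + 1) : ℝ) : ℂ) := rfl
theorem hh_inf : hh OnePoint.infty = 0 := rfl

theorem star_hh_mul : star hh * hh = star tt * tt := by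
  ext x
  induction x using OnePoint.rec with
  | infty => simp [hh_inf, tt_inf]
  | coe n =>
    simp only [ContinuousMap.mul_apply, ContinuousMap.star_apply, hh_coe, tt_coe, star_mul',
      star_pow, star_neg, star_one]
    have : ((-1 : ℂ) ^ n) * (-1) ^ n = 1 := by rw [← mul_pow]; simp
    linear_combination (star ((1 / ((n : ℝ) + 1) : ℝ) : ℂ) * ((1 / ((n : ℝ) + 1) : ℝ) : ℂ)) * this

variable {m : ℕ}

/-- The matrices of size `m + 2` over `C(ℕ ∪ {∞})`. -/
abbrev MM (m : ℕ) := Matrix (Fin (m + 2)) (Fin (m + 2)) C(OnePoint ℕ, ℂ)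

theorem sum_sq_zero (c : Fin 3 → MM m) (h : ∑ l, (c l)ᴴ * c l = 0) (l : Fin 3) : c l = 0 := by
  ext p q x
  have h1 := congrArg (fun M : MM m => M q q x) h
  simp only [Matrix.sum_apply, Matrix.mul_apply, ContinuousMap.sum_apply,
    Matrix.conjTranspose_apply, ContinuousMap.mul_apply, ContinuousMap.star_apply,
    Matrix.zero_apply, ContinuousMap.zero_apply] at h1
  have h2 : ∀ z : ℂ, star z * z = ((Complex.normSq z : ℝ) : ℂ) := fun z => by
    rw [mul_comm]
    exact Complex.mul_conj z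
  simp only [h2] at h1
  have h3 : ∑ l : Fin 3, ∑ p : Fin (m + 2), Complex.normSq (c l p q x) = 0 := by
    exact_mod_cast h1
  have h4 := (Finset.sum_eq_zero_iff_of_nonneg (fun l _ =>
    Finset.sum_nonneg fun p _ => Complex.normSq_nonneg _)).1 h3 l (Finset.mem_univ l)
  have h5 := (Finset.sum_eq_zero_iff_of_nonneg (fun p _ => Complex.normSq_nonneg _)).1 h4 p
    (Finset.mem_univ p)
  exact Complex.normSq_eq_zero.1 h5

theorem neg_part : ¬ PTC (MM m) := by
  intro hP
  obtain ⟨b0, hb0⟩ : ∃ b0 : MM m, b0 = Matrix.single 0 0 1 + Matrix.single 1 1 hh := ⟨_, rfl⟩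
  obtain ⟨b1, hb1⟩ : ∃ b1 : MM m, b1 = Matrix.single 0 1 tt + Matrix.single 1 0 1 := ⟨_, rfl⟩
  have h01 : (0 : Fin (m + 2)) ≠ 1 := by simp
  have hbb : b1ᴴ * b1 = b0ᴴ * b0 := by
    simp only [hb0, hb1, conjTranspose_add, conjTranspose_single, add_mul, mul_add,
      single_mul_single_same, single_mul_single_of_ne _ _ _ _ h01,
      single_mul_single_of_ne _ _ _ _ h01.symm, star_one, one_mul, mul_one, add_zero, zero_add,
      star_hh_mul]
    exact add_comm _ _
  set a : ℤ → MM m := fun l => if l = 0 then b0ᴴ * b0 else if l = 1 then b1ᴴ * b0 else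
    if l = -1 then b0ᴴ * b1 else 0 with ha
  have hpos : IsPos (toeplitz 2 a) := by
    refine ⟨!![b0, b1; 0, 0], ?_⟩
    ext i j : 2
    rw [Matrix.mul_apply, Fin.sum_univ_two]
    fin_cases i <;> fin_cases j <;> simp [toeplitz, ha, Matrix.star_eq_conjTranspose, hbb]
  obtain ⟨y, hy, B, hB⟩ := hP 2 3 (by norm_num) (by norm_num) a hpos
  have hT : ∀ i j : Fin 3, y ((i : ℤ) - (j : ℤ)) = ∑ l, (B l i)ᴴ * B l j := by
    intro i j
    have := congrFun (congrFun hB i) j
    rw [Matrix.mul_apply] at this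
    exact this
  obtain ⟨u0, hu0⟩ : ∃ u0 : MM m, u0 = Matrix.single 0 0 tt := ⟨_, rfl⟩
  obtain ⟨u1, hu1⟩ : ∃ u1 : MM m, u1 = -Matrix.single 1 0 1 := ⟨_, rfl⟩
  have hb : b0 * u0 + b1 * u1 = 0 := by
    simp only [hb0, hb1, hu0, hu1, add_mul, mul_neg,
      single_mul_single_same, single_mul_single_of_ne _ _ _ _ h01,
      single_mul_single_of_ne _ _ _ _ h01.symm, one_mul, mul_one, add_zero, zero_add]
    exact add_neg_cancel _
  have y0 : y 0 = b0ᴴ * b0 := by
    rw [hy 0 (by norm_num)]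
    simp [ha]
  have y1 : y 1 = b1ᴴ * b0 := by
    rw [hy 1 (by norm_num)]
    simp [ha]
  have ym : y (-1) = b0ᴴ * b1 := by
    rw [hy (-1) (by norm_num)]
    simp [ha]
  have e00 : ∑ l, (B l 0)ᴴ * B l 0 = b0ᴴ * b0 := by rw [← hT, ← y0]; simp
  have e01 : ∑ l, (B l 0)ᴴ * B l 1 = b0ᴴ * b1 := by rw [← hT, ← ym]; simp
  have e10 : ∑ l, (B l 1)ᴴ * B l 0 = b1ᴴ * b0 := by rw [← hT, ← y1]; simp
  have e11 : ∑ l, (B l 1)ᴴ * B l 1 = b1ᴴ * b1 := by rw [← hT, hbb, ← y0]; simp
  have e20 : ∑ l, (B l 2)ᴴ * B l 0 = y 2 := by rw [← hT]; simp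
  have e21 : ∑ l, (B l 2)ᴴ * B l 1 = b1ᴴ * b0 := by rw [← hT, ← y1]; simp
  have hc : ∀ l, B l 0 * u0 + B l 1 * u1 = 0 := by
    refine sum_sq_zero (fun l => B l 0 * u0 + B l 1 * u1) ?_
    have e : ∀ l, (B l 0 * u0 + B l 1 * u1)ᴴ * (B l 0 * u0 + B l 1 * u1) =
        u0ᴴ * ((B l 0)ᴴ * B l 0) * u0 + u0ᴴ * ((B l 0)ᴴ * B l 1) * u1 +
        (u1ᴴ * ((B l 1)ᴴ * B l 0) * u0 + u1ᴴ * ((B l 1)ᴴ * B l 1) * u1) := by
      intro l
      rw [conjTranspose_add, conjTranspose_mul, conjTranspose_mul]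
      noncomm_ring
    simp only [e, Finset.sum_add_distrib, ← Finset.sum_mul, ← Finset.mul_sum, e00, e01, e10, e11]
    calc u0ᴴ * (b0ᴴ * b0) * u0 + u0ᴴ * (b0ᴴ * b1) * u1 +
          (u1ᴴ * (b1ᴴ * b0) * u0 + u1ᴴ * (b1ᴴ * b1) * u1) =
        (b0 * u0 + b1 * u1)ᴴ * (b0 * u0 + b1 * u1) := by
          rw [conjTranspose_add, conjTranspose_mul, conjTranspose_mul]
          noncomm_ring
      _ = 0 := by rw [hb, mul_zero]
  have h2 : y 2 * u0 + b1ᴴ * b0 * u1 = 0 := by
    rw [← e20, ← e21, Finset.sum_mul, Finset.sum_mul, ← Finset.sum_add_distrib]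
    refine Finset.sum_eq_zero fun l _ => ?_
    rw [mul_assoc, mul_assoc, ← mul_add, hc, mul_zero]
  have h3 : y 2 0 0 * tt = hh := by
    have h4 := congrFun (congrFun h2 0) 0
    have e5 : b1ᴴ * b0 = Matrix.single 0 1 hh + Matrix.single 1 0 (star tt) := by
      simp only [hb0, hb1, conjTranspose_add, conjTranspose_single, add_mul, mul_add,
        single_mul_single_same, single_mul_single_of_ne _ _ _ _ h01,
        single_mul_single_of_ne _ _ _ _ h01.symm, star_one, one_mul, mul_one, add_zero, zero_add]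
      exact add_comm _ _
    have e6 : (b1ᴴ * b0 * u1) 0 0 = -hh := by
      rw [e5, hu1, mul_neg, Matrix.neg_apply, add_mul, single_mul_single_same,
        single_mul_single_of_ne _ _ _ _ h01, add_zero, mul_one, single_apply_same]
    rw [Matrix.add_apply, e6, hu0, mul_single_apply_same, Matrix.zero_apply] at h4
    exact add_neg_eq_zero.1 h4
  have h4 : ∀ n : ℕ, y 2 0 0 (n : OnePoint ℕ) = (-1) ^ n := by
    intro n
    have h5 := congrArg (fun f : C(OnePoint ℕ, ℂ) => f (n : OnePoint ℕ)) h3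
    simp only [ContinuousMap.mul_apply, hh_coe, tt_coe] at h5
    refine mul_right_cancel₀ ?_ h5
    have : (0 : ℝ) < 1 / ((n : ℝ) + 1) := by positivity
    exact_mod_cast this.ne'
  have h5 : Tendsto (fun n : ℕ => y 2 0 0 (n : OnePoint ℕ)) atTop
      (𝓝 (y 2 0 0 OnePoint.infty)) :=
    ((y 2 0 0).continuous.tendsto _).comp Pool.Agent.Q39.TC.tendsto_coe
  simp only [h4] at h5
  have h6 : Tendsto (fun n : ℕ => 2 * n) atTop atTop :=
    tendsto_atTop_mono (fun n : ℕ => (by omega : n ≤ 2 * n)) tendsto_id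
  have h7 : Tendsto (fun n : ℕ => 2 * n + 1) atTop atTop :=
    tendsto_atTop_mono (fun n : ℕ => (by omega : n ≤ 2 * n + 1)) tendsto_id
  have h8 := h5.comp h6
  have h9 := h5.comp h7
  have h10 : (fun n : ℕ => (-1 : ℂ) ^ n) ∘ (fun n : ℕ => 2 * n) = fun _ => 1 := by
    funext n
    simp [pow_mul]
  have h11 : (fun n : ℕ => (-1 : ℂ) ^ n) ∘ (fun n : ℕ => 2 * n + 1) = fun _ => -1 := by
    funext n
    simp [pow_mul, pow_add]
  rw [h10] at h8
  rw [h11] at h9
  have h12 := tendsto_nhds_unique tendsto_const_nhds h8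
  have h13 := tendsto_nhds_unique tendsto_const_nhds h9
  rw [← h12] at h13
  norm_num at h13

/-- The C*-algebra of the continuous functions on the one point compactification of `ℕ` is in `PTC`,
its matrix algebras of size `m ≥ 2` are not. -/
theorem result : PTC C(OnePoint ℕ, ℂ) ∧
    ∀ m : ℕ, 2 ≤ m → ¬ PTC (Matrix (Fin m) (Fin m) C(OnePoint ℕ, ℂ)) := by
  refine ⟨pos_part, fun m hm => ?_⟩
  obtain ⟨m, rfl⟩ : ∃ m', m = m' + 2 := ⟨m - 2, by omega⟩
  exact neg_part

end Pool.Agent.Results.MP_a15892_an.MatricesOverConvergentSequences
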